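import Pool.Agent.H917R2.BP.Stm
import Pool.Agent.H677R2.Tr.Rvf

/-! BP, task uni1: lower bound for unitaries. -/

set_option autoImplicit false
set_option linter.unusedSectionVars false
set_option linter.deprecated false

open scoped ComplexOrder InnerProductSpace ComplexConjugate Topology
open Filter

noncomputable section

namespace H9R5.BP

open H759R2.Kad H710R2.DP H917R2.Tr H917R2.BP

section

variable {K : Type} [NormedAddCommGroup K] [InnerProductSpace ℂ K] [CompleteSpace K]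

theorem sq_add_le (a b : K) (s : ℝ) (hs : 0 < s) :
    ‖a + b‖ ^ 2 ≤ (1 + s) * ‖a‖ ^ 2 + (1 + 1 / s) * ‖b‖ ^ 2 := by
  have h1 := norm_add_le a b
  have h2 : ‖a + b‖ ^ 2 ≤ (‖a‖ + ‖b‖) ^ 2 := pow_le_pow_left₀ (norm_nonneg _) h1 2
  have h3 : 0 ≤ (s * ‖a‖ - ‖b‖) ^ 2 / s := by positivity
  have h4 : (s * ‖a‖ - ‖b‖) ^ 2 / s = s * ‖a‖ ^ 2 - 2 * ‖a‖ * ‖b‖ + 1 / s * ‖b‖ ^ 2 := by
    field_simp
    ring
  rw [h4] at h3
  nlinarith

theorem ColB.reindex {ι κ : Type} [Fintype ι] [Fintype κ] (e : κ ≃ ι) {x : ι → BH K} {c : ℝ} :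
    ColB (fun i => x (e i)) c ↔ ColB x c := by
  unfold ColB
  refine forall_congr' fun η => ?_
  rw [Equiv.sum_comp e (fun i => ‖x i η‖ ^ 2)]

theorem rcb {P : BH K →ₗ[ℂ] BH K} {κ δ : ℝ} (h : RCB P κ δ) {ι : Type} [Fintype ι]
    (x : ι → BH K) (c r : ℝ) (hc : ColB x c) (hr : RowB x r) :
    ColB (fun i => P (x i)) (κ * (c + δ * r)) ∧ RowB (fun i => P (x i)) (κ * (r + δ * c)) := by
  have e := (Fintype.equivFin ι).symm
  have h1 : ColB (fun i => x (e i)) c := (ColB.reindex e).2 hc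
  have h2 : RowB (fun i => x (e i)) r := (ColB.reindex (x := fun i => star (x i)) e).2 hr
  obtain ⟨h3, h4⟩ := h _ (fun i => x (e i)) c r h1 h2
  exact ⟨(ColB.reindex (x := fun i => P (x i)) e).1 h3,
    (ColB.reindex (x := fun i => star (P (x i))) e).1 h4⟩

/-- triangle inequality for column bounds -/
theorem ColB.sub {ι : Type} [Fintype ι] {a b : ι → BH K} {c d : ℝ} (ha : ColB a c)
    (hb : ColB b d) : ColB (fun i => a i - b i) (3 / 2 * c + 3 * d) := by
  intro η
  have h1 : ∀ i, ‖(a i - b i) η‖ ^ 2 ≤ 3 / 2 * ‖a i η‖ ^ 2 + 3 * ‖b i η‖ ^ 2 := by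
    intro i
    have h := sq_add_le (a i η) (-(b i η)) (1 / 2) (by norm_num)
    have e : (a i - b i) η = a i η + -(b i η) := by
      rw [ContinuousLinearMap.sub_apply, sub_eq_add_neg]
    rw [e]
    rw [norm_neg] at h
    norm_num at h ⊢
    linarith
  calc ∑ i, ‖(a i - b i) η‖ ^ 2 ≤ ∑ i, (3 / 2 * ‖a i η‖ ^ 2 + 3 * ‖b i η‖ ^ 2) :=
        Finset.sum_le_sum fun i _ => h1 i
    _ = 3 / 2 * ∑ i, ‖a i η‖ ^ 2 + 3 * ∑ i, ‖b i η‖ ^ 2 := by
        rw [Finset.sum_add_distrib, Finset.mul_sum, Finset.mul_sum]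
    _ ≤ 3 / 2 * (c * ‖η‖ ^ 2) + 3 * (d * ‖η‖ ^ 2) := by
        have := ha η
        have := hb η
        linarith
    _ = _ := by ring

theorem summ {ζ : ℕ → K} (hζ : Sq ζ) (x : BH K) : Summable fun k => ‖x (ζ k)‖ ^ 2 := by
  have h2 : Summable fun k => ‖ζ k‖ ^ 2 := hζ
  refine Summable.of_nonneg_of_le (fun _ => by positivity) (fun k => ?_) (h2.mul_left (‖x‖ ^ 2))
  rw [← mul_pow]
  exact pow_le_pow_left₀ (norm_nonneg _) (x.le_opNorm _) 2

theorem sum_mu_le {ζ : ℕ → K} (hζ : Sq ζ) {ι : Type} [Fintype ι] (x : ι → BH K) (c : ℝ)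
    (hx : ColB x c) (z : BH K) : ∑ i, mu ζ (x i * z) ≤ c * mu ζ z := by
  unfold mu
  rw [← Summable.tsum_finsetSum fun i _ => summ hζ (x i * z), ← tsum_mul_left]
  refine Summable.tsum_le_tsum (fun k => hx (z (ζ k)))
    (summable_sum fun i _ => summ hζ (x i * z)) ((summ hζ z).mul_left c)

theorem mu_add_le {ζ : ℕ → K} (hζ : Sq ζ) (x y : BH K) :
    mu ζ (x + y) ≤ 2 * mu ζ x + 2 * mu ζ y := by
  unfold mu
  rw [← tsum_mul_left, ← tsum_mul_left,
    ← Summable.tsum_add ((summ hζ x).mul_left 2) ((summ hζ y).mul_left 2)]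
  refine Summable.tsum_le_tsum (fun k => ?_) (summ hζ (x + y))
    (((summ hζ x).mul_left 2).add ((summ hζ y).mul_left 2))
  have h := sq_add_le (x (ζ k)) (y (ζ k)) 1 one_pos
  norm_num at h
  exact h

theorem norm_le_one_of_star_mul {u : BH K} (h : star u * u = 1) : ‖u‖ ≤ 1 := by
  have h1 := CStarRing.norm_star_mul_self (x := u)
  rw [h] at h1
  have h2 : ‖(1 : BH K)‖ ≤ 1 := ContinuousLinearMap.norm_id_le
  nlinarith [norm_nonneg u]

end

theorem t_uni1 (h1 : S_dec) (h2 : S_tenR) : S_uni1 := by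
  intro K 𝓗 _ _ _ _ _ _ T N ζ P C κ δ hζ hC hκ hδ hP hRCB hκδ z hz hz0 ι _ u hu hsym
  obtain ⟨⟨hzs, hzz⟩, hzN, hzc⟩ := hz
  obtain ⟨_, _, _, _, _, _, _, _, hLn, hRn, _⟩ := h2 K 𝓗 T
  have hvfmu := (H677R2.Tr.p_R_vf K ζ hζ.sq).2.2.2.2
  -- norms
  have hz1 : ‖z‖ ≤ 1 := by
    have h := CStarRing.norm_star_mul_self (x := z)
    rw [hzs, hzz] at h
    have h0 : 0 < ‖z‖ := norm_pos_iff.2 hz0
    nlinarith
  have hu1 : ∀ i, ‖u i‖ ≤ 1 := fun i => norm_le_one_of_star_mul (hu i).2.1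
  have hv1 : ∀ i, ‖z * u i‖ ≤ 1 := fun i =>
    (norm_mul_le _ _).trans (mul_le_one₀ hz1 (norm_nonneg _) (hu1 i))
  have hPhi : ‖Phi T (fun i => z * u i)‖ ≤ Fintype.card ι := by
    unfold Phi
    calc ‖∑ i, T.L (z * u i) * T.R (z * u i)‖ ≤ ∑ i, ‖T.L (z * u i) * T.R (z * u i)‖ :=
          norm_sum_le _ _
      _ ≤ ∑ _i : ι, (1 : ℝ) := by
          refine Finset.sum_le_sum fun i _ => ?_
          exact (norm_mul_le _ _).trans (mul_le_one₀ ((hLn _).trans (hv1 i)) (norm_nonneg _)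
            ((hRn _).trans (hv1 i)))
      _ = Fintype.card ι := by simp
  have hcolOf : ∀ w : ι → BH K, (∀ i, ‖w i‖ ≤ 1) → ColB w (Fintype.card ι) := by
    intro w hw η
    calc ∑ i, ‖w i η‖ ^ 2 ≤ ∑ _i : ι, ‖η‖ ^ 2 := by
          refine Finset.sum_le_sum fun i _ => ?_
          refine pow_le_pow_left₀ (norm_nonneg _) ?_ 2
          exact ((w i).le_opNorm η).trans (mul_le_of_le_one_left (norm_nonneg _) (hw i))
      _ = Fintype.card ι * ‖η‖ ^ 2 := by simp
  have hcolv : ColB (fun i => z * u i) (Fintype.card ι) := hcolOf _ hv1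
  have hrowv : RowB (fun i => z * u i) (Fintype.card ι) :=
    hcolOf (fun i => star (z * u i)) (fun i => by
      show ‖star (z * u i)‖ ≤ 1
      rw [norm_star]; exact hv1 i)
  have hvN : ∀ i, z * u i ∈ N := fun i => mul_mem hzN (hu i).1
  have hsymv : Sym (fun i => z * u i) := by
    obtain ⟨σ, hσ⟩ := hsym
    refine ⟨σ, fun i => ?_⟩
    show z * u (σ i) = star (z * u i)
    rw [hσ, hzc (u i) (hu i).1, star_mul, hzs]
  -- the value of the functional
  have hmu0 : 0 < mu ζ z := by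
    have h0 : 0 ≤ mu ζ z := tsum_nonneg fun k => by positivity
    rcases h0.lt_or_eq with h | h
    · exact h
    · exfalso
      apply hz0
      apply hζ.fa z hzN
      rw [hvfmu, ← h, Complex.ofReal_zero]
  have hmuv : ∀ i, mu ζ (z * u i * z) = mu ζ z := by
    intro i
    unfold mu
    refine tsum_congr fun k => ?_
    have e : z * u i * z = u i * z := by
      rw [mul_assoc, hzc (u i * z) (mul_mem (hu i).1 hzN), mul_assoc, hzz]
    rw [e]
    have h3 : ‖(u i * z) (ζ k)‖ = ‖z (ζ k)‖ := by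
      have h4 : star (u i) * u i = 1 := (hu i).2.1
      have h5 : ‖u i (z (ζ k))‖ ≤ ‖z (ζ k)‖ :=
        ((u i).le_opNorm _).trans (mul_le_of_le_one_left (norm_nonneg _) (hu1 i))
      have h6 : z (ζ k) = (star (u i)) (u i (z (ζ k))) := by
        have := congrArg (fun f : BH K => f (z (ζ k))) h4
        exact this.symm
      have h7 : ‖z (ζ k)‖ ≤ ‖u i (z (ζ k))‖ := by
        conv_lhs => rw [h6]
        exact ((star (u i)).le_opNorm _).trans
          (mul_le_of_le_one_left (norm_nonneg _) (by rw [norm_star]; exact hu1 i))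
      exact le_antisymm h5 h7
    rw [h3]
  have htr : ∀ y ∈ N, mu ζ (y * z) = mu ζ (star y * z) := by
    intro y hy
    have hsy : star y ∈ N := star_mem hy
    have e1 : vf ζ (star (y * z) * (y * z)) = vf ζ (star (star y * z) * (star y * z)) := by
      rw [hζ.tr _ (star_mem (mul_mem hy hzN)) _ (mul_mem hy hzN)]
      congr 1
      rw [star_mul, star_mul, star_star, hzs]
      calc y * z * (z * star y) = y * (z * z) * star y := by noncomm_ring
        _ = (y * z) * star y := by rw [hzz]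
        _ = z * y * star y := by rw [hzc y hy]
        _ = (z * z) * y * star y := by rw [hzz]
        _ = z * (z * (y * star y)) := by noncomm_ring
        _ = z * ((y * star y) * z) := by rw [hzc _ (mul_mem hy hsy)]
        _ = z * y * (star y * z) := by noncomm_ring
    rw [hvfmu, hvfmu] at e1
    exact_mod_cast e1
  -- the estimate for every S
  have key : ∀ S : ℝ, ‖Phi T (fun i => z * u i)‖ < S →
      (Fintype.card ι : ℝ) ≤ 4 * (κ * (S / 4 + δ * (3 / 2 * Fintype.card ι + 3 * (S / 4)))) := by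
    intro S hS
    obtain ⟨x, hx1, hx2⟩ := h1 K 𝓗 T ι (fun i => z * u i) hsymv S 1 one_pos hS
    rw [mul_one] at hx1 hx2
    set r : ℝ := 3 / 2 * Fintype.card ι + 3 * (S / 4) with hr
    have hrowx : RowB x r := by
      have h := ColB.sub hrowv hx2
      have e : (fun i => star (z * u i) - star (z * u i - x i)) = fun i => star (x i) := by
        funext i
        rw [← star_sub]
        congr 1
        abel
      rw [e] at h
      exact h
    have hcoly : ColB (fun i => z * u i - x i) r := ColB.sub hcolv hx1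
    obtain ⟨hA, _⟩ := rcb hRCB x (S / 4) r hx1 hrowx
    obtain ⟨_, hB⟩ := rcb hRCB (fun i => z * u i - x i) r (S / 4) hcoly hx2
    have hsumA := sum_mu_le hζ.sq (fun i => P (x i)) _ hA z
    have hsumB := sum_mu_le hζ.sq (fun i => star (P (z * u i - x i))) _ hB z
    have hsumB' : ∑ i, mu ζ (P (z * u i - x i) * z) ≤ κ * (S / 4 + δ * r) * mu ζ z := by
      refine le_trans (le_of_eq ?_) hsumB
      exact Finset.sum_congr rfl fun i _ => htr _ (hP.mem _)
    have hsum : (Fintype.card ι : ℝ) * mu ζ z = ∑ i, mu ζ (z * u i * z) := by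
      rw [Finset.sum_congr rfl fun i _ => hmuv i]
      simp
    have hle : ∀ i, mu ζ (z * u i * z) ≤
        2 * mu ζ (P (x i) * z) + 2 * mu ζ (P (z * u i - x i) * z) := by
      intro i
      have e : z * u i * z = P (x i) * z + P (z * u i - x i) * z := by
        rw [← add_mul, ← map_add]
        congr 1
        rw [add_sub_cancel, hP.id _ (hvN i)]
      rw [e]
      exact mu_add_le hζ.sq _ _
    have hfin : (Fintype.card ι : ℝ) * mu ζ z ≤ 4 * (κ * (S / 4 + δ * r)) * mu ζ z := by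
      rw [hsum]
      calc ∑ i, mu ζ (z * u i * z) ≤
            ∑ i, (2 * mu ζ (P (x i) * z) + 2 * mu ζ (P (z * u i - x i) * z)) :=
            Finset.sum_le_sum fun i _ => hle i
        _ = 2 * ∑ i, mu ζ (P (x i) * z) + 2 * ∑ i, mu ζ (P (z * u i - x i) * z) := by
            rw [Finset.sum_add_distrib, Finset.mul_sum, Finset.mul_sum]
        _ ≤ 4 * (κ * (S / 4 + δ * r)) * mu ζ z := by linarith
    exact le_of_mul_le_mul_right hfin hmu0
  -- the limit
  set F : ℝ := ‖Phi T (fun i => z * u i)‖ with hF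
  have hF0 : 0 ≤ F := norm_nonneg _
  have hlim : (Fintype.card ι : ℝ) ≤
      4 * (κ * (F / 4 + δ * (3 / 2 * Fintype.card ι + 3 * (F / 4)))) := by
    refine le_of_forall_pos_le_add fun ε hε => ?_
    have hB : 0 ≤ κ * (1 + 3 * δ) := by positivity
    have h3 := key (F + ε / (κ * (1 + 3 * δ) + 1)) (by
      have : 0 < ε / (κ * (1 + 3 * δ) + 1) := by positivity
      linarith)
    have h4 : κ * (1 + 3 * δ) * (ε / (κ * (1 + 3 * δ) + 1)) ≤ ε := by
      rw [← mul_div_assoc, div_le_iff₀ (by linarith)]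
      nlinarith
    nlinarith
  have hκδ0 : 0 ≤ κ * δ := by positivity
  have hcard : (0 : ℝ) ≤ Fintype.card ι := Nat.cast_nonneg _
  nlinarith [mul_nonneg hκδ0 (sub_nonneg.2 hPhi), mul_nonneg (sub_nonneg.2 hκδ) hcard]

end H9R5.BP
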